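import Pool.Agent.ALC.Defs
import Pool.Agent.SzFM.Defs

/-!
Families of curves given by plane models: heights of points and divisors of bad reduction.

A family is given by `F` in `ℤ[t_1, ..., t_r][x][y]` whose leading coefficient in `y` does not
depend on `x`. The member at `t ∈ ℤ^r` is the smooth projective curve `X_t` over `ℚ` with function
field `ℚ(x)[y]/(F_t)` (if `F_t` is irreducible over `ℂ`). If `P = 0` (`P` irreducible in `ℤ[t]`) is a
divisor of the parameter space over whose generic point the stable reduction of the family is not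
smooth, then there is `J`, not divisible by `P`, such that all primes `p` with `p ∣ P(t)` and
`p ∤ J(t)` are places of bad reduction of `X_t`, over `ℚ` and all its finite extensions (stable
curves extend over a finite cover of an open subset meeting `P = 0`).
-/

open Polynomial

namespace SzAF

/-- The member `F_t` of the family `F`. -/
noncomputable def member {r : ℕ} (F : (MvPolynomial (Fin r) ℤ)[X][X]) (t : Fin r → ℤ) : ℤ[X][X] :=
  F.map (mapRingHom (MvPolynomial.eval t))

/-- `f` as a polynomial over the field `K`, divided by its leading coefficient in `y`, which is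
assumed to be an integer (independent of `x`). -/
noncomputable def eqn (K : Type*) [Field K] (f : ℤ[X][X]) : K[X][X] :=
  C (C (((f.leadingCoeff.coeff 0 : ℤ) : K)⁻¹)) * f.map (mapRingHom (Int.castRingHom K))

/-- The curve with equation `f(x, y) = 0` has a point `(b, y0)` over some number field `K` with
stable Arakelov height at most `B`. Included: an orthonormal basis of the holomorphic differentials
exists for each embedding of `K` in `ℂ`, and (if the genus is not zero) the value `l` at the point
of the difference of the Arakelov Green function and `log |x - b|` exists and is unique. (`IsONB`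
forces `g` to be the genus.) -/
def SmallPoint (f : ℤ[X][X]) (B : ℝ) : Prop :=
  ∃ (K : Type) (_ : Field K) (_ : NumberField K) (b y0 : K),
    (ALC.at_ (eqn K f) b).Separable ∧ (ALC.at_ (eqn K f) b).eval y0 = 0 ∧
    (∀ σ : K →+* ℂ, ∃ (g : ℕ) (e : Fin g → Polynomial (Polynomial ℂ) × Polynomial ℂ),
      ALC.IsONB (ALC.bc σ (eqn K f)) g e) ∧
    ∀ (g : (K →+* ℂ) → ℕ) (e : ∀ σ : K →+* ℂ, Fin (g σ) → Polynomial (Polynomial ℂ) × Polynomial ℂ),
      (∀ σ, 1 ≤ g σ) → (∀ σ, ALC.IsONB (ALC.bc σ (eqn K f)) (g σ) (e σ)) →
      (∀ σ, ∃! l : ℝ, ∃ G, ALC.IsGreen (ALC.bc σ (eqn K f)) (e σ) (σ b) (σ y0) G l) ∧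
      ∀ l : (K →+* ℂ) → ℝ,
        (∀ σ, ∃ G, ALC.IsGreen (ALC.bc σ (eqn K f)) (e σ) (σ b) (σ y0) G (l σ)) →
        ALC.height K (eqn K f) b y0 l ≤ (B : EReal)

/-- The sum of the absolute values of the coefficients. -/
def len {r : ℕ} (p : MvPolynomial (Fin r) ℤ) : ℕ := ∑ m ∈ p.support, (p.coeff m).natAbs

/-- `f` is irreducible over the field of the complex numbers. -/
def Irred (f : ℤ[X][X]) : Prop := Irreducible (f.map (mapRingHom (Int.castRingHom ℂ)))

/-- The product of the primes which divide `x` and do not divide `y`. -/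
noncomputable def primePart (x y : ℤ) : ℕ :=
  haveI := Classical.decPred (fun p : ℕ => ¬ (p : ℤ) ∣ y)
  ∏ p ∈ x.natAbs.primeFactors.filter (fun p : ℕ => ¬ (p : ℤ) ∣ y), p

end SzAF
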