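import Pool.Agent.SzAF.Super

/-!
Families of cyclic covers of the line, with the bad part of binary forms.
-/

open Polynomial
open scoped Classical

namespace SzAF

theorem super_main (m N r w : ℕ) (hmN : m ∣ N) (hg : 2 ≤ SzBF.genus m N)
    (a : Fin (N + 1) → MvPolynomial (Fin r) ℤ) (ha : ∀ i, (a i).totalDegree ≤ w)
    (haN : a (Fin.last N) ≠ 0) (hD : (SzBF.form N a).discr ≠ 0)
    (e : ℕ) (I : MvPolynomial (Fin (N + 1)) ℤ) (hI : SzFM.IsInvariant N e I)
    (hj : ∀ c : ℤ, c ≠ 0 → ¬ (SzBF.form N a).discr ^ e ∣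
      MvPolynomial.C c * (MvPolynomial.aeval a I) ^ (2 * N - 2))
    (κ : ℝ) (hκ : (w : ℝ) < κ) :
    ∃ A η : ℝ, 0 < η ∧ ∀ T : ℕ, 1 ≤ T →
      (((SzFM.cube r T).filter (fun t => ¬ ((SzBF.form N (SzFM.val a t)).natDegree = N ∧
        (SzBF.form N (SzFM.val a t)).discr ≠ 0 ∧ SmallPoint (superEqn m (SzBF.form N (SzFM.val a t)))
        (κ * Real.log (SzFM.badPart m N (SzFM.val a t)) +
          (Real.log ((∑ i, len (a i) : ℕ) : ℝ) +
            ((N + 1) * Real.log (N + 1) + 2 * Chebyshev.psi m + 4 * Real.log 2)))))).card : ℝ)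
        ≤ A * (T : ℝ) ^ ((r : ℝ) - η) := by
  obtain ⟨hm2, hN3⟩ := SzFM.genus_two hg
  obtain ⟨P, D', J', d, i, hP, hPd, hDP, hJP, hPJ, hdi⟩ :=
    SzFM.exists_prime r _ _ hD e (2 * N - 2) (by omega) hj
  have hw0 : (0 : ℝ) ≤ w := Nat.cast_nonneg w
  have hκ0 : 0 < κ := by linarith
  set ε : ℝ := (κ - w) / κ with hε
  have hε0 : 0 < ε := div_pos (by linarith) hκ0
  have hε1 : ε ≤ 1 := by
    rw [hε, div_le_one hκ0]; linarith
  have hκε : κ * (1 - ε) = w := by
    rw [hε]; field_simp; ring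
  obtain ⟨A1, η1, hη1, hA1⟩ := SzFM.fib_gen r P J' hP hPd hPJ (m : ℤ) (by exact_mod_cast (by omega)) ε
    hε0 hε1
  obtain ⟨A2, hA20, hA2⟩ := SzFM.cube_zero r (a (Fin.last N)) haN
  obtain ⟨A3, hA30, hA3⟩ := SzFM.cube_zero r _ hD
  set K : Fin (N + 1) → ℕ := fun i => len (a i) with hKdef
  have hK : ∀ i, ∀ T : ℕ, 1 ≤ T → ∀ t ∈ SzFM.cube r T,
      |MvPolynomial.eval t (a i)| ≤ (K i : ℤ) * (T : ℤ) ^ w :=
    fun i T hT t ht => growth r w (a i) (ha i) T hT t ht
  set K0 : ℕ := ∑ i, K i with hK0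
  have hK01 : 1 ≤ K0 := by
    have h1 : K (Fin.last N) ≤ ∑ i, K i :=
      Finset.single_le_sum (f := K) (fun _ _ => Nat.zero_le _) (Finset.mem_univ _)
    have h2 : 1 ≤ K (Fin.last N) := len_pos haN
    omega
  set C0 : ℝ := (N + 1) * Real.log (N + 1) + 2 * Chebyshev.psi m + 4 * Real.log 2 with hC0
  refine ⟨|A1| + A2 + A3, min η1 1,
    lt_min hη1 one_pos, fun T hT => ?_⟩
  have hT1 : (1 : ℝ) ≤ T := by exact_mod_cast hT
  have hT0 : (0 : ℝ) < T := by linarith
  have hsub : (SzFM.cube r T).filter (fun t => ¬ ((SzBF.form N (SzFM.val a t)).natDegree = N ∧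
        (SzBF.form N (SzFM.val a t)).discr ≠ 0 ∧ SmallPoint (superEqn m (SzBF.form N (SzFM.val a t)))
        (κ * Real.log (SzFM.badPart m N (SzFM.val a t)) + (Real.log K0 + C0)))) ⊆
      ((SzFM.cube r T).filter (fun t =>
        (SzFM.ker ((m : ℤ) * MvPolynomial.eval t J') (MvPolynomial.eval t P) : ℝ) <
          (T : ℝ) ^ (1 - ε) ∨ MvPolynomial.eval t J' = 0)) ∪
      (((SzFM.cube r T).filter (fun t => MvPolynomial.eval t (a (Fin.last N)) = 0)) ∪
      ((SzFM.cube r T).filter (fun t => MvPolynomial.eval t (SzBF.form N a).discr = 0))) := by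
    intro t ht
    rw [Finset.mem_filter] at ht
    by_contra hcon
    rw [Finset.mem_union, Finset.mem_union, Finset.mem_filter, Finset.mem_filter,
      Finset.mem_filter] at hcon
    push Not at hcon
    obtain ⟨g1, g2, g3⟩ := hcon
    have k1 := (g1 ht.1).1
    have k2 := g2 ht.1
    have k3 := g3 ht.1
    apply ht.2
    have hspec := SzFM.discr_spec a haN t k2
    have hinv := SzFM.eval_inv a I t
    have hdis : (SzBF.form N (fun i => MvPolynomial.eval t (a i))).discr ≠ 0 := by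
      rw [hspec]; exact k3
    have hker := SzFM.ker_le m N e (by omega) I hI (fun i => MvPolynomial.eval t (a i))
      (MvPolynomial.eval t P) (MvPolynomial.eval t D') (MvPolynomial.eval t J') d i
      (by rw [hspec, hDP, map_mul, map_pow]) (by rw [hinv, hJP, map_mul, map_pow]) hdis hdi
    have hbad : (T : ℝ) ^ (1 - ε) ≤
        (SzFM.badPart m N (fun i => MvPolynomial.eval t (a i)) : ℝ) :=
      le_trans k1 (by exact_mod_cast hker)
    have hlog : (1 - ε) * Real.log T ≤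
        Real.log (SzFM.badPart m N (fun i => MvPolynomial.eval t (a i))) := by
      rw [← Real.log_rpow hT0]
      exact Real.log_le_log (by positivity) hbad
    -- the height
    have hH : 1 ≤ K0 * T ^ w := Nat.one_le_iff_ne_zero.2
      (mul_ne_zero (by omega) (pow_ne_zero _ (by omega)))
    have hcf : ∀ i, |(SzBF.form N (SzFM.val a t)).coeff i| ≤ ((K0 * T ^ w : ℕ) : ℤ) := by
      intro i
      rw [SzFM.form_coeff]
      split_ifs with hi
      · refine (hK ⟨i, hi⟩ T hT t ht.1).trans ?_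
        push_cast
        apply mul_le_mul_of_nonneg_right _ (by positivity)
        have h1 : K ⟨i, hi⟩ ≤ ∑ i, K i :=
          Finset.single_le_sum (f := K) (fun _ _ => Nat.zero_le _) (Finset.mem_univ _)
        have h2 : K ⟨i, hi⟩ ≤ K0 := by omega
        exact_mod_cast h2
      · rw [abs_zero]
        positivity
    have hnd : (SzBF.form N (SzFM.val a t)).natDegree = N := SzFM.form_natDegree N _ k2
    have hsm := super_small m N hm2 (SzBF.form N (SzFM.val a t)) (by omega) hnd.le hdis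
      (K0 * T ^ w) hH hcf
    refine ⟨hnd, hdis, ?_⟩
    refine smallPoint_mono hsm ?_
    have hK0' : (0 : ℝ) < K0 := by exact_mod_cast (by omega : 0 < K0)
    have e1 : Real.log ((K0 * T ^ w : ℕ) : ℝ) = Real.log K0 + w * Real.log T := by
      push_cast
      rw [Real.log_mul hK0'.ne' (by positivity), Real.log_pow]
    rw [e1]
    have e2 : κ * ((1 - ε) * Real.log T) ≤
        κ * Real.log (SzFM.badPart m N (fun i => MvPolynomial.eval t (a i))) :=
      mul_le_mul_of_nonneg_left hlog hκ0.le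
    rw [← mul_assoc, hκε] at e2
    have e3 : SzFM.badPart m N (fun i => MvPolynomial.eval t (a i)) =
        SzFM.badPart m N (SzFM.val a t) := rfl
    rw [e3] at e2
    linarith
  have hcard := (Finset.card_le_card hsub).trans ((Finset.card_union_le _ _).trans
      (Nat.add_le_add_left (Finset.card_union_le _ _) _))
  have f1 : A1 * (T : ℝ) ^ ((r : ℝ) - η1) ≤ |A1| * (T : ℝ) ^ ((r : ℝ) - min η1 1) := by
    have h2 : (T : ℝ) ^ ((r : ℝ) - η1) ≤ (T : ℝ) ^ ((r : ℝ) - min η1 1) :=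
      Real.rpow_le_rpow_of_exponent_le hT1 (by linarith [min_le_left η1 1])
    have h3 : 0 ≤ (T : ℝ) ^ ((r : ℝ) - η1) := by positivity
    calc A1 * (T : ℝ) ^ ((r : ℝ) - η1) ≤ |A1| * (T : ℝ) ^ ((r : ℝ) - η1) :=
          mul_le_mul_of_nonneg_right (le_abs_self A1) h3
      _ ≤ _ := mul_le_mul_of_nonneg_left h2 (abs_nonneg A1)
  have f2 : ∀ x : ℝ, 0 ≤ x → x * (T : ℝ) ^ ((r : ℝ) - 1) ≤ x * (T : ℝ) ^ ((r : ℝ) - min η1 1) :=
    fun x hx => mul_le_mul_of_nonneg_left
      (Real.rpow_le_rpow_of_exponent_le hT1 (by linarith [min_le_right η1 1])) hx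
  have hcard' : (((SzFM.cube r T).filter (fun t => ¬ ((SzBF.form N (SzFM.val a t)).natDegree = N ∧
        (SzBF.form N (SzFM.val a t)).discr ≠ 0 ∧ SmallPoint (superEqn m (SzBF.form N (SzFM.val a t)))
        (κ * Real.log (SzFM.badPart m N (SzFM.val a t)) + (Real.log K0 + C0))))).card : ℝ) ≤
      |A1| * (T : ℝ) ^ ((r : ℝ) - min η1 1) + (A2 * (T : ℝ) ^ ((r : ℝ) - min η1 1) +
        A3 * (T : ℝ) ^ ((r : ℝ) - min η1 1)) :=
    le_trans (by exact_mod_cast hcard) (add_le_add ((hA1 T hT).trans f1)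
      (add_le_add ((hA2 T hT).trans (f2 A2 hA20)) ((hA3 T hT).trans (f2 A3 hA30))))
  refine hcard'.trans (le_of_eq ?_)
  ring


/-- Almost all members of every family of cyclic covers with a nonconstant absolute invariant. -/
theorem every_super (m N r w : ℕ) (hmN : m ∣ N) (hg : 2 ≤ SzBF.genus m N)
    (a : Fin (N + 1) → MvPolynomial (Fin r) ℤ) (hw : ∀ i, (a i).totalDegree ≤ w)
    (haN : a (Fin.last N) ≠ 0) (hD : (SzBF.form N a).discr ≠ 0) (ha : SzFM.Moves a)
    (κ : ℝ) (hκ : (w : ℝ) < κ) :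
    ∃ A η : ℝ, 0 < η ∧ ∀ T : ℕ, 1 ≤ T →
      (((SzFM.cube r T).filter (fun t => ¬ ((SzBF.form N (SzFM.val a t)).natDegree = N ∧
        (SzBF.form N (SzFM.val a t)).discr ≠ 0 ∧
        SmallPoint (superEqn m (SzBF.form N (SzFM.val a t)))
        (κ * Real.log (SzFM.badPart m N (SzFM.val a t)) +
          (Real.log ((∑ i, len (a i) : ℕ) : ℝ) +
            ((N + 1) * Real.log (N + 1) + 2 * Chebyshev.psi m + 4 * Real.log 2)))))).card : ℝ)
        ≤ A * (T : ℝ) ^ ((r : ℝ) - η) := by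
  obtain ⟨e, I, hI, hj⟩ := ha
  exact super_main m N r w hmN hg a hw haN hD e I hI hj κ hκ

end SzAF
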