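import Pool.Agent.SzAF.Pt
import Pool.Agent.SzFM.Fib

/-!
Almost all members of a family of plane models have a small point.
-/

open Polynomial
open scoped Classical

namespace SzAF

theorem primePart_eq (x y : ℤ) : primePart x y = SzFM.ker (1 * y) x := by
  unfold primePart SzFM.ker
  rw [one_mul]
  congr!

theorem member_coeff {r : ℕ} (F : (MvPolynomial (Fin r) ℤ)[X][X]) (t : Fin r → ℤ) (j i : ℕ) :
    ((member F t).coeff j).coeff i = MvPolynomial.eval t ((F.coeff j).coeff i) := by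
  unfold member
  rw [coeff_map, coe_mapRingHom, coeff_map]

theorem smallPoint_mono {f : ℤ[X][X]} {B B' : ℝ} (h : SmallPoint f B) (hB : B ≤ B') :
    SmallPoint f B' := by
  obtain ⟨K, i1, i2, b, y0, h1, h2, h3, h4⟩ := h
  refine ⟨K, i1, i2, b, y0, h1, h2, h3, fun g e hg he => ⟨(h4 g e hg he).1, fun l hl =>
    ((h4 g e hg he).2 l hl).trans ?_⟩⟩
  exact_mod_cast hB

theorem growth (n w : ℕ) (W : MvPolynomial (Fin n) ℤ) (hw : W.totalDegree ≤ w) (T : ℕ)
    (hT : 1 ≤ T) (t : Fin n → ℤ) (ht : t ∈ SzFM.cube n T) :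
    |MvPolynomial.eval t W| ≤ (len W : ℤ) * (T : ℤ) ^ w := by
  have hT1 : (1 : ℤ) ≤ T := by exact_mod_cast hT
  have ht' : ∀ i, |t i| ≤ (T : ℤ) := by
    intro i
    have := (Fintype.mem_piFinset.mp ht) i
    rw [Finset.mem_Icc] at this
    exact abs_le.mpr this
  rw [MvPolynomial.eval_eq', len]
  refine (Finset.abs_sum_le_sum_abs _ _).trans ?_
  rw [Nat.cast_sum, Finset.sum_mul]
  refine Finset.sum_le_sum fun d hd => ?_
  rw [abs_mul, Int.natCast_natAbs]
  refine mul_le_mul_of_nonneg_left ?_ (abs_nonneg _)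
  rw [Finset.abs_prod]
  calc ∏ i, |t i ^ d i| ≤ ∏ i, (T : ℤ) ^ d i := by
        refine Finset.prod_le_prod (fun i _ => abs_nonneg _) fun i _ => ?_
        rw [abs_pow]
        exact pow_le_pow_left₀ (abs_nonneg _) (ht' i) _
    _ = (T : ℤ) ^ (∑ i, d i) := by rw [Finset.prod_pow_eq_pow_sum]
    _ ≤ (T : ℤ) ^ w := by
        refine pow_le_pow_right₀ hT1 ?_
        have h1 := MvPolynomial.le_totalDegree hd
        rw [Finsupp.sum_fintype _ _ (fun _ => rfl)] at h1
        exact h1.trans hw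

theorem len_pos {n : ℕ} {W : MvPolynomial (Fin n) ℤ} (hW : W ≠ 0) : 1 ≤ len W := by
  obtain ⟨m, hm⟩ := MvPolynomial.ne_zero_iff.1 hW
  have h1 : m ∈ W.support := MvPolynomial.mem_support_iff.2 hm
  have h2 : (W.coeff m).natAbs ≤ len W :=
    Finset.single_le_sum (f := fun m => (W.coeff m).natAbs) (fun _ _ => Nat.zero_le _) h1
  have h3 : 1 ≤ (W.coeff m).natAbs := Int.natAbs_pos.2 hm
  omega

theorem main (r d δ : ℕ) (hd : 2 ≤ d) (F : (MvPolynomial (Fin r) ℤ)[X][X])
    (hFd : F.natDegree = d) (c : MvPolynomial (Fin r) ℤ) (hc : F.leadingCoeff = C c)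
    (D : (MvPolynomial (Fin r) ℤ)[X]) (hD0 : D ≠ 0) (hδ : ∀ i, (D.coeff i).totalDegree ≤ δ)
    (hram : ∃ e : MvPolynomial (Fin r) ℤ, e ≠ 0 ∧ ∃ k : ℕ, F.discr ∣ C e * D ^ k)
    (P J : MvPolynomial (Fin r) ℤ) (hP : Irreducible P) (hPd : 0 < P.totalDegree) (hPJ : ¬ P ∣ J)
    (κ : ℝ) (hκ : (δ : ℝ) < κ) :
    ∃ A η : ℝ, 0 < η ∧ ∀ T : ℕ, 1 ≤ T →
      (((SzFM.cube r T).filter (fun t => Irred (member F t) ∧ ¬ SmallPoint (member F t)
        (κ * Real.log (primePart (MvPolynomial.eval t P) (MvPolynomial.eval t J)) +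
          (Real.log ((∑ i ∈ D.support, len (D.coeff i) : ℕ) : ℝ) +
            ((D.natDegree + 1) * Real.log (D.natDegree + 1) + 2 * Chebyshev.psi d +
              4 * Real.log 2))))).card : ℝ) ≤
        A * (T : ℝ) ^ ((r : ℝ) - η) := by
  obtain ⟨e, he0, k, hdvd⟩ := hram
  have hF0 : F ≠ 0 := by
    rintro rfl
    rw [natDegree_zero] at hFd
    omega
  have hc0 : c ≠ 0 := by
    rintro rfl
    rw [C_0, leadingCoeff_eq_zero] at hc
    exact hF0 hc
  have hl0 : D.leadingCoeff ≠ 0 := leadingCoeff_ne_zero.2 hD0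
  obtain ⟨A1, hA1, hZ⟩ := SzFM.cube_zero r (c * (e * D.leadingCoeff))
    (mul_ne_zero hc0 (mul_ne_zero he0 hl0))
  set n : ℕ := D.natDegree with hn
  -- growth
  set K : ℕ := ∑ i ∈ D.support, len (D.coeff i) with hKdef
  have hK1 : 1 ≤ K := by
    have h1 : D.natDegree ∈ D.support := natDegree_mem_support_of_nonzero hD0
    have h2 : len (D.coeff D.natDegree) ≤ K :=
      Finset.single_le_sum (f := fun i => len (D.coeff i)) (fun _ _ => Nat.zero_le _) h1
    have h3 : 1 ≤ len (D.coeff D.natDegree) := len_pos hl0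
    omega
  have hK : ∀ T : ℕ, 1 ≤ T → ∀ t ∈ SzFM.cube r T, ∀ i,
      |MvPolynomial.eval t (D.coeff i)| ≤ ((K * T ^ δ : ℕ) : ℤ) := by
    intro T hT t ht i
    by_cases hs : i ∈ D.support
    · refine (growth r δ (D.coeff i) (hδ i) T hT t ht).trans ?_
      have h2 : len (D.coeff i) ≤ K :=
        Finset.single_le_sum (f := fun i => len (D.coeff i)) (fun _ _ => Nat.zero_le _) hs
      exact_mod_cast Nat.mul_le_mul_right _ h2
    · rw [notMem_support_iff.1 hs, map_zero, abs_zero]
      positivity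
  -- the exponent
  have hw0 : (0 : ℝ) ≤ δ := by positivity
  have hκ0 : 0 < κ := lt_of_le_of_lt hw0 hκ
  set ε : ℝ := 1 - (δ : ℝ) / κ with hε
  have hε0 : 0 < ε := by
    have : (δ : ℝ) / κ < 1 := by
      rw [div_lt_one hκ0]
      exact hκ
    linarith
  have hε1 : ε ≤ 1 := by
    have : 0 ≤ (δ : ℝ) / κ := div_nonneg hw0 hκ0.le
    linarith
  obtain ⟨A, η, hη, hA⟩ := SzFM.fib_gen r P J hP hPd hPJ 1 one_ne_zero ε hε0 hε1
  set C0 : ℝ := (n + 1) * Real.log (n + 1) + 2 * Chebyshev.psi d + 4 * Real.log 2 with hC0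
  refine ⟨|A| + A1, min η 1, lt_min hη one_pos, fun T hT => ?_⟩
  have hT1 : (1 : ℝ) ≤ T := by exact_mod_cast hT
  have hsub : ((SzFM.cube r T).filter (fun t => Irred (member F t) ∧ ¬ SmallPoint (member F t)
        (κ * Real.log (primePart (MvPolynomial.eval t P) (MvPolynomial.eval t J)) +
          (Real.log K + C0)))) ⊆
      ((SzFM.cube r T).filter (fun t =>
        (SzFM.ker (1 * MvPolynomial.eval t J) (MvPolynomial.eval t P) : ℝ) < (T : ℝ) ^ (1 - ε) ∨
          MvPolynomial.eval t J = 0)) ∪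
      ((SzFM.cube r T).filter (fun t => MvPolynomial.eval t (c * (e * D.leadingCoeff)) = 0)) := by
    intro t ht
    rw [Finset.mem_filter] at ht
    rw [Finset.mem_union, Finset.mem_filter, Finset.mem_filter]
    by_contra hcon
    push Not at hcon
    obtain ⟨hc1, hc2⟩ := hcon
    have hk := (hc1 ht.1).1
    have hcel := hc2 ht.1
    rw [map_mul, map_mul] at hcel
    have hct : MvPolynomial.eval t c ≠ 0 := left_ne_zero_of_mul hcel
    have het : MvPolynomial.eval t e ≠ 0 := left_ne_zero_of_mul (right_ne_zero_of_mul hcel)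
    have hlt : MvPolynomial.eval t D.leadingCoeff ≠ 0 :=
      right_ne_zero_of_mul (right_ne_zero_of_mul hcel)
    apply ht.2.2
    have hlead : member F t = F.map (mapRingHom (MvPolynomial.eval t)) := rfl
    have hne : mapRingHom (MvPolynomial.eval t) F.leadingCoeff ≠ 0 := by
      rw [hc, coe_mapRingHom, map_C]
      exact C_ne_zero.2 hct
    have hmd : (member F t).natDegree = d := by
      rw [hlead, natDegree_map_of_leadingCoeff_ne_zero _ hne, hFd]
    have hml : (member F t).leadingCoeff = C (MvPolynomial.eval t c) := by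
      rw [hlead, leadingCoeff_map_of_leadingCoeff_ne_zero _ hne, hc, coe_mapRingHom, map_C]
    have hmdisc : (member F t).discr = F.discr.map (MvPolynomial.eval t) := by
      rw [hlead, SzBF.discr_map_of_ne _ hne]
      rfl
    have hD0' : D.map (MvPolynomial.eval t) ≠ 0 := by
      intro h0
      have h1 := congrArg (fun p : ℤ[X] => p.coeff D.natDegree) h0
      simp only [coeff_map, coeff_zero] at h1
      exact hlt h1
    have h3 := small_point d n hd (member F t) hmd _ hct hml ht.2.1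
      (D.map (MvPolynomial.eval t)) hD0' natDegree_map_le
      ⟨MvPolynomial.eval t e, het, k, by
        rw [hmdisc, ← map_C (MvPolynomial.eval t), ← Polynomial.map_pow, ← Polynomial.map_mul]
        exact Polynomial.map_dvd _ hdvd⟩ (K * T ^ δ)
      (Nat.one_le_iff_ne_zero.2 (by positivity)) (fun i => by
        rw [coeff_map]
        exact hK T hT t ht.1 i)
    refine smallPoint_mono h3 ?_
    have hlog : (1 - ε) * Real.log T ≤
        Real.log (primePart (MvPolynomial.eval t P) (MvPolynomial.eval t J)) := by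
      rw [← Real.log_rpow (by linarith), primePart_eq]
      exact Real.log_le_log (by positivity) hk
    have h4 : κ * ((1 - ε) * Real.log T) = (δ : ℝ) * Real.log T := by
      rw [hε]
      field_simp
      ring
    have h5 := mul_le_mul_of_nonneg_left hlog hκ0.le
    have h6 : Real.log ((K * T ^ δ : ℕ) : ℝ) = Real.log K + δ * Real.log T := by
      push_cast
      rw [Real.log_mul (by positivity) (by positivity), Real.log_pow]
    rw [h6]
    linarith
  have hη1 : (T : ℝ) ^ ((r : ℝ) - η) ≤ (T : ℝ) ^ ((r : ℝ) - min η 1) :=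
    Real.rpow_le_rpow_of_exponent_le hT1 (by linarith [min_le_left η 1])
  have hη2 : (T : ℝ) ^ ((r : ℝ) - 1) ≤ (T : ℝ) ^ ((r : ℝ) - min η 1) :=
    Real.rpow_le_rpow_of_exponent_le hT1 (by linarith [min_le_right η 1])
  have hp0 : (0 : ℝ) ≤ (T : ℝ) ^ ((r : ℝ) - η) := by positivity
  refine (Nat.cast_le.2 (Finset.card_le_card hsub)).trans ?_
  refine (Nat.cast_le.2 (Finset.card_union_le _ _)).trans ?_
  rw [Nat.cast_add]
  refine (add_le_add (hA T hT) (hZ T hT)).trans ?_
  rw [add_mul]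
  apply add_le_add
  · exact (mul_le_mul_of_nonneg_right (le_abs_self A) hp0).trans
      (mul_le_mul_of_nonneg_left hη1 (abs_nonneg A))
  · exact mul_le_mul_of_nonneg_left hη2 hA1

end SzAF
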