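import Pool.Agent.SzAF.Defs
import Pool.Agent.SzPl.Pt
import Pool.Agent.EGR.FinalU

/-!
Curves with small coefficients have a point of small height.
-/

open Polynomial

namespace SzAF

theorem genus_const (g : ℕ) (hg : 1 ≤ g) :
    (1 / 2 : ℝ) * Real.log (1 + 1 / g) + (1 / g) * Real.log (1 + g) ≤ 2 * Real.log 2 := by
  have hg0 : (0 : ℝ) < g := by exact_mod_cast hg
  have hg1 : (1 : ℝ) ≤ g := by exact_mod_cast hg
  have hl2 : 0 < Real.log 2 := Real.log_pos (by norm_num)
  have h1 : Real.log (1 + 1 / g) ≤ Real.log 2 := by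
    apply Real.log_le_log (by positivity)
    have : 1 / (g : ℝ) ≤ 1 := by
      rw [div_le_one hg0]
      exact hg1
    linarith
  have h2 : Real.log (1 + g) ≤ g * Real.log 2 := by
    rw [← Real.log_pow]
    apply Real.log_le_log (by positivity)
    have := one_add_mul_le_pow (a := (1 : ℝ)) (by norm_num) g
    norm_num at this
    linarith
  have h3 : (1 / (g : ℝ)) * Real.log (1 + g) ≤ Real.log 2 := by
    rw [div_mul_eq_mul_div, one_mul, div_le_iff₀ hg0]
    linarith
  linarith

theorem L_le (p : Polynomial ℤ) (n : ℕ) (hp : p.natDegree ≤ n) (H : ℤ)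
    (hH : ∀ i, |p.coeff i| ≤ H) : SzPl.DBd.L p ≤ (n + 1) * H := by
  rw [SzPl.DBd.L_eq p (Finset.range (n + 1)) (by
    intro i hi
    rw [Finset.mem_range]
    have := Polynomial.le_natDegree_of_mem_supp i hi
    omega)]
  refine (Finset.sum_le_card_nsmul _ _ H fun i _ => hH i).trans ?_
  rw [Finset.card_range, nsmul_eq_mul]
  push_cast
  exact le_rfl

theorem small_point (d n : ℕ) (hd : 2 ≤ d) (f : ℤ[X][X]) (hfd : f.natDegree = d)
    (c : ℤ) (hc : c ≠ 0) (hfl : f.leadingCoeff = Polynomial.C c) (hirr : Irred f)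
    (D : ℤ[X]) (hD0 : D ≠ 0) (hDn : D.natDegree ≤ n)
    (hram : ∃ e : ℤ, e ≠ 0 ∧ ∃ k : ℕ, f.discr ∣ Polynomial.C e * D ^ k)
    (H : ℕ) (hH1 : 1 ≤ H) (hH : ∀ i, |D.coeff i| ≤ H) :
    SmallPoint f (Real.log H + ((n + 1) * Real.log (n + 1) + 2 * Chebyshev.psi d +
      4 * Real.log 2)) := by
  obtain ⟨e₀, he₀, k₀, hdvd⟩ := hram
  set Δ : ℤ[X] := f.discr with hΔ
  have hf0 : f ≠ 0 := by
    intro h
    rw [h, natDegree_zero] at hfd
    omega
  have hlc0 : f.leadingCoeff.coeff 0 = c := by
    rw [hfl, coeff_C_zero]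
  have hΔ0 : Δ ≠ 0 := by
    have hdeg : (f.map (mapRingHom (Int.castRingHom ℂ))).natDegree = d := by
      rw [← hfd]
      exact natDegree_map_eq_of_injective (map_injective _ (RingHom.injective_int _)) f
    have h2 := SzPl.discr_ne_zero_of_irreducible _ (by rw [hdeg]; omega) hirr
    rw [SzBF.discr_map_of_ne (mapRingHom (Int.castRingHom ℂ)) (f := f) (by
      rw [hfl]
      simpa using hc)] at h2
    intro h0
    apply h2
    rw [← hΔ, h0, map_zero]
  -- the point b
  obtain ⟨b, hbN, hbD⟩ : ∃ b : ℕ, b ≤ n ∧ D.eval (b : ℤ) ≠ 0 := by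
    by_contra hcon
    push Not at hcon
    have h1 : (Finset.image (fun b : ℕ => (b : ℤ)) (Finset.range (n + 1))) ⊆ D.roots.toFinset := by
      intro x hx
      obtain ⟨b, hb, rfl⟩ := Finset.mem_image.1 hx
      rw [Multiset.mem_toFinset, mem_roots hD0]
      exact hcon b (by have := Finset.mem_range.1 hb; omega)
    have h2 := Finset.card_le_card h1
    rw [Finset.card_image_of_injective _ Nat.cast_injective, Finset.card_range] at h2
    have h3 := h2.trans ((Multiset.toFinset_card_le _).trans (card_roots' _))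
    omega
  have hb : Δ.eval (b : ℤ) ≠ 0 := by
    intro h0
    obtain ⟨q, hq⟩ := hdvd
    have h1 := congrArg (fun p : ℤ[X] => p.eval (b : ℤ)) hq
    simp only [eval_mul, eval_C, eval_pow, h0, zero_mul] at h1
    rcases mul_eq_zero.1 h1 with h2 | h2
    · exact he₀ h2
    · exact hbD (eq_zero_of_pow_eq_zero h2)
  -- the field
  set q : ℚ[X] := (f.map (evalRingHom (b : ℤ))).map (Int.castRingHom ℚ) with hq
  set Dq : ℚ[X] := Δ.map (Int.castRingHom ℚ) with hDq
  set Eq : ℚ[X] := D.map (Int.castRingHom ℚ) with hEq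
  obtain ⟨K, instF, instN, hsp⟩ := SzPl.exists_split (Eq * (Dq * q))
  have hcomp : (Rat.castHom K).comp (Int.castRingHom ℚ) = Int.castRingHom K := RingHom.ext_int _ _
  have hqd : (f.map (evalRingHom (b : ℤ))).natDegree = d := by
    rw [← hfd]
    apply natDegree_map_of_leadingCoeff_ne_zero
    rw [hfl]
    simpa using hc
  have hqd' : q.natDegree = d := by
    rw [← hqd]
    exact natDegree_map_eq_of_injective (RingHom.injective_int _) _
  have hq0 : q ≠ 0 := by
    intro h
    rw [h, natDegree_zero] at hqd'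
    omega
  have hDq0 : Dq ≠ 0 := (Polynomial.map_ne_zero_iff (RingHom.injective_int _)).2 hΔ0
  have hEq0 : Eq ≠ 0 := (Polynomial.map_ne_zero_iff (RingHom.injective_int _)).2 hD0
  have hprod0 : (Eq * (Dq * q)).map (Rat.castHom K) ≠ 0 := by
    rw [Polynomial.map_ne_zero_iff (Rat.castHom K).injective]
    exact mul_ne_zero hEq0 (mul_ne_zero hDq0 hq0)
  have hspΔ : (Δ.map (Int.castRingHom K)).Splits := by
    have h : Dq.map (Rat.castHom K) = Δ.map (Int.castRingHom K) := by
      rw [hDq, Polynomial.map_map, hcomp]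
    rw [← h]
    refine hsp.of_dvd hprod0 ?_
    rw [Polynomial.map_mul, Polynomial.map_mul]
    exact (dvd_mul_right _ _).trans (dvd_mul_left _ _)
  have hspD : (D.map (Int.castRingHom K)).Splits := by
    have h : Eq.map (Rat.castHom K) = D.map (Int.castRingHom K) := by
      rw [hEq, Polynomial.map_map, hcomp]
    rw [← h]
    refine hsp.of_dvd hprod0 ?_
    rw [Polynomial.map_mul]
    exact dvd_mul_right _ _
  have hspq : (q.map (Rat.castHom K)).Splits := by
    refine hsp.of_dvd hprod0 ?_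
    rw [Polynomial.map_mul, Polynomial.map_mul]
    exact (dvd_mul_left _ _).trans (dvd_mul_left _ _)
  have hcK : ((c : ℤ) : K) ≠ 0 := by exact_mod_cast hc
  set φ : ℤ →+* K := Int.castRingHom K with hφ
  have hφinj : Function.Injective φ := RingHom.injective_int _
  have hF : eqn K f = C (C ((c : K)⁻¹)) * f.map (mapRingHom φ) := by
    rw [eqn, hlc0]
  have hfKd : (f.map (mapRingHom φ)).natDegree = d := by
    rw [← hfd]
    exact natDegree_map_eq_of_injective (map_injective _ hφinj) f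
  have hfKl : (f.map (mapRingHom φ)).leadingCoeff = C (c : K) := by
    rw [leadingCoeff_map_of_injective (map_injective _ hφinj), hfl]
    simp [hφ]
  have hFm : (eqn K f).Monic := by
    rw [Monic, hF, leadingCoeff_mul, leadingCoeff_C, hfKl, ← C_mul, inv_mul_cancel₀ hcK, C_1]
  have hFd : (eqn K f).natDegree = d := by
    rw [hF, natDegree_C_mul_of_mul_ne_zero, hfKd]
    rw [hfKl, ← C_mul, inv_mul_cancel₀ hcK]
    simp
  have hgeom : ALC.GeomIrred (eqn K f) := by
    obtain ⟨τ⟩ := SzPl.exists_emb K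
    unfold ALC.GeomIrred ALC.bc
    apply Monic.irreducible_of_irreducible_map (mapRingHom τ) _ (hFm.map _)
    rw [Polynomial.map_map, mapRingHom_comp, hF, Polynomial.map_mul, map_C, Polynomial.map_map,
      mapRingHom_comp]
    have h3 : (τ.comp (algebraMap K (AlgebraicClosure K))).comp φ = Int.castRingHom ℂ :=
      RingHom.ext_int _ _
    rw [h3, irreducible_isUnit_mul]
    · exact hirr
    · apply IsUnit.map C
      refine IsUnit.map (mapRingHom (τ.comp (algebraMap K (AlgebraicClosure K)))) ?_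
      apply IsUnit.map C
      exact (isUnit_iff_ne_zero.2 (inv_ne_zero hcK))
  have hirrK : Irreducible (eqn K f) :=
    Monic.irreducible_of_irreducible_map (mapRingHom (algebraMap K (AlgebraicClosure K))) _ hFm hgeom
  have hdisc : (eqn K f).discr = C (((c : K)⁻¹) ^ (2 * d - 2)) * Δ.map φ := by
    rw [hF, SzPl.discr_unit_mul _ (by rw [hfKd]; omega) _ (inv_ne_zero hcK), hfKd]
    rw [SzBF.discr_map_of_ne (mapRingHom φ) (f := f) (by
      rw [hfl]
      simpa [hφ] using hc)]
    rfl
  have hDK0 : Δ.map φ ≠ 0 := (Polynomial.map_ne_zero_iff hφinj).2 hΔ0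
  have hc2 : ((c : K)⁻¹) ^ (2 * d - 2) ≠ 0 := pow_ne_zero _ (inv_ne_zero hcK)
  have hdisc0 : (eqn K f).discr ≠ 0 := by
    rw [hdisc]
    exact mul_ne_zero (C_ne_zero.2 hc2) hDK0
  have hdiscs : (eqn K f).discr.Splits := by
    rw [hdisc]
    exact (Splits.C _).mul hspΔ
  have hroot : ∀ a : K, (Δ.map φ).IsRoot a → (D.map φ).IsRoot a := by
    intro a ha
    obtain ⟨q', hq'⟩ := hdvd
    have h1 := congrArg (fun p : ℤ[X] => (p.map φ).eval a) hq'
    simp only [Polynomial.map_mul, Polynomial.map_pow, map_C, eval_mul, eval_C, eval_pow] at h1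
    rw [IsRoot.def] at ha
    rw [ha, zero_mul] at h1
    have he1 : φ e₀ ≠ 0 := by
      rw [Ne, map_eq_zero_iff φ hφinj]
      exact he₀
    rcases mul_eq_zero.1 h1 with h2 | h2
    · exact absurd h2 he1
    · rw [IsRoot.def]
      exact eq_zero_of_pow_eq_zero h2
  -- the exceptional set
  classical
  set D' : ℤ[X] := D * (X - C ((b : ℤ) + 1)) with hD'
  have hD'0 : D'.map φ ≠ 0 := by
    rw [Polynomial.map_ne_zero_iff hφinj]
    exact mul_ne_zero hD0 (X_sub_C_ne_zero _)
  set A : Finset K := (D'.map φ).roots.toFinset with hA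
  have hA1 : ∀ a ∈ A, (D'.map φ).IsRoot a := by
    intro a ha
    rw [hA, Multiset.mem_toFinset, mem_roots hD'0] at ha
    exact ha
  have hAne : A.Nonempty := by
    refine ⟨(b : K) + 1, ?_⟩
    rw [hA, Multiset.mem_toFinset, mem_roots hD'0, IsRoot.def, hD', Polynomial.map_mul, eval_mul]
    simp [hφ]
  have hD's : (D'.map φ).Splits := by
    rw [hD', Polynomial.map_mul, Polynomial.map_sub, map_X, map_C]
    exact hspD.mul (Splits.X_sub_C _)
  have hev : ∀ E : ℤ[X], (E.map φ).eval (b : K) = ((E.eval (b : ℤ) : ℤ) : K) := by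
    intro E
    have h1 := (eval₂_at_apply φ (b : ℤ) (p := E))
    rw [← eval_map] at h1
    simpa [hφ] using h1
  have hbA : (b : K) ∉ A := by
    intro h
    have h1 := hA1 _ h
    rw [IsRoot.def, hD', Polynomial.map_mul, eval_mul, hev D] at h1
    rcases mul_eq_zero.1 h1 with h2 | h2
    · exact hbD (by exact_mod_cast h2)
    · simp [hφ] at h2
  have hun : ALC.UnramifiedOutside (eqn K f) A := by
    apply SzPl.unramified _ hFm (by rw [hFd]; omega) hirrK hdiscs hdisc0
    intro a ha
    rw [hA, Multiset.mem_toFinset, mem_roots hD'0, IsRoot.def, hD', Polynomial.map_mul, eval_mul]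
    rw [IsRoot.def, hdisc, eval_mul, eval_C] at ha
    rcases mul_eq_zero.1 ha with h1 | h1
    · exact absurd h1 hc2
    · have h2 := hroot a h1
      rw [IsRoot.def] at h2
      rw [h2, zero_mul]
  have hat : ALC.at_ (eqn K f) (b : K) = C ((c : K)⁻¹) * q.map (Rat.castHom K) := by
    unfold ALC.at_
    rw [hF, Polynomial.map_mul, map_C, Polynomial.map_map, hq, Polynomial.map_map,
      Polynomial.map_map, hcomp]
    congr 1
    · simp
    · congr 1
      ext x
      · simp [hφ]
      · simp [hφ]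
  have hsep : (ALC.at_ (eqn K f) (b : K)).Separable := by
    have h1 : ((eqn K f).map (evalRingHom (b : K))).discr =
        evalRingHom (b : K) (eqn K f).discr := by
      apply SzBF.discr_map_of_ne
      rw [hFm.leadingCoeff, map_one]
      exact one_ne_zero
    apply SzBF.separable_of_discr
    · show 1 ≤ ((eqn K f).map (evalRingHom (b : K))).natDegree
      rw [hFm.natDegree_map, hFd]
      omega
    · show ((eqn K f).map (evalRingHom (b : K))).discr ≠ 0
      rw [h1, coe_evalRingHom, hdisc, eval_mul, eval_C, hev Δ]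
      exact mul_ne_zero hc2 (by exact_mod_cast hb)
  obtain ⟨y0, hy0⟩ : ∃ y0 : K, (q.map (Rat.castHom K)).eval y0 = 0 := by
    apply hspq.exists_eval_eq_zero
    intro h
    have h1 : (q.map (Rat.castHom K)).natDegree = 0 := natDegree_eq_of_degree_eq_some h
    rw [natDegree_map, hqd'] at h1
    omega
  have hy : (ALC.at_ (eqn K f) (b : K)).eval y0 = 0 := by
    rw [hat, eval_mul, hy0, mul_zero]
  refine ⟨K, inferInstance, inferInstance, b, y0, hsep, hy,
    fun σ => EGR.onb_bc (eqn K f) hFm hgeom b hsep σ, fun g e hg1 he => ⟨fun σ => ?_, fun l hl => ?_⟩⟩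
  · obtain ⟨G, l, hG⟩ := EGR.green_bc (eqn K f) hFm hgeom b y0 hsep hy σ (g σ) (hg1 σ) (e σ) (he σ)
    refine ⟨l, ⟨G, hG⟩, fun l' hl' => ?_⟩
    obtain ⟨G', hG'⟩ := hl'
    exact EGR.unique_bc (eqn K f) hFm hgeom b y0 hsep hy σ (g σ) (hg1 σ) (e σ) (he σ) G' G l' l
      hG' hG
  choose Gr hGr using hl
  refine (ALC.main_gen (eqn K f) hFm hgeom A hAne hun b y0 hbA hsep hy g hg1 e he Gr l hGr).trans ?_
  rw [EReal.coe_le_coe_iff, hFd]
  have hgc : (1 / (Module.finrank ℚ K : ℝ)) * ∑ σ : K →+* ℂ,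
      ((1 / 2) * Real.log (1 + 1 / (g σ : ℝ)) + (1 / (g σ : ℝ)) * Real.log (1 + (g σ : ℝ))) ≤
      2 * Real.log 2 := by
    have h1 : ∑ σ : K →+* ℂ, ((1 / 2) * Real.log (1 + 1 / (g σ : ℝ)) +
        (1 / (g σ : ℝ)) * Real.log (1 + (g σ : ℝ))) ≤
        (Module.finrank ℚ K : ℝ) * (2 * Real.log 2) := by
      refine (Finset.sum_le_card_nsmul _ _ _ fun σ _ => genus_const (g σ) (hg1 σ)).trans ?_
      rw [nsmul_eq_mul, Finset.card_univ, NumberField.Embeddings.card]
    have h2 : (0 : ℝ) < Module.finrank ℚ K := by exact_mod_cast Module.finrank_pos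
    rw [div_mul_eq_mul_div, one_mul, div_le_iff₀ h2]
    linarith
  have hH0 : (1 : ℝ) ≤ H := by exact_mod_cast hH1
  have hT : ∀ i, |(D.taylor (b : ℤ)).coeff i| ≤ (((n + 1) ^ (n + 1) * H : ℕ) : ℤ) := by
    intro i
    refine (SzPl.DBd.coeff_le _ i).trans ((SzPl.DBd.L_taylor D b n hDn).trans ?_)
    have h1 := L_le D n hDn H hH
    have h2 : ((1 : ℤ) + b) ^ n ≤ (n + 1) ^ n := by
      apply pow_le_pow_left₀ (by positivity)
      have : (b : ℤ) ≤ n := by exact_mod_cast hbN
      linarith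
    have h3 : (0 : ℤ) ≤ (n + 1) ^ n := by positivity
    calc ((1 : ℤ) + b) ^ n * SzPl.DBd.L D ≤ (n + 1) ^ n * ((n + 1) * H) :=
          mul_le_mul h2 h1 (SzPl.DBd.L_nonneg _) h3
      _ = (((n + 1) ^ (n + 1) * H : ℕ) : ℤ) := by
          push_cast
          ring
  set M : ℕ := (n + 1) ^ (n + 1) * H with hM
  have hM1 : 1 ≤ M := Nat.one_le_iff_ne_zero.2 (by positivity)
  have hbr := SzPl.branchHeight_le D' hD's A hA1 (b : ℤ) (by
    rw [hD', eval_mul]
    refine mul_ne_zero hbD ?_
    simp) (2 * M) (by omega) (by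
    intro i
    have h1 : D'.taylor (b : ℤ) = D.taylor (b : ℤ) * (X - C 1) := by
      rw [hD', taylor_mul, map_sub, taylor_X, taylor_C]
      congr 1
      rw [C_add]
      ring
    rw [h1, mul_sub, coeff_sub, coeff_mul_C, mul_one]
    have h2 := hT i
    have h3 : |((taylor (b : ℤ)) D * X).coeff i| ≤ (M : ℤ) := by
      cases i with
      | zero =>
        rw [coeff_mul_X_zero, abs_zero]
        positivity
      | succ i =>
        rw [coeff_mul_X]
        exact hT i
    push_cast
    calc _ ≤ |((taylor (b : ℤ)) D * X).coeff i| + |((taylor (b : ℤ)) D).coeff i| := abs_sub _ _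
      _ ≤ _ := by linarith)
  have h5 : Real.log (2 * ((2 * M : ℕ) : ℝ)) =
      2 * Real.log 2 + (n + 1) * Real.log (n + 1) + Real.log H := by
    have e1 : (2 * ((2 * M : ℕ) : ℝ)) = 2 ^ 2 * (((n : ℝ) + 1) ^ (n + 1) * H) := by
      rw [hM]
      push_cast
      ring
    rw [e1, Real.log_mul (by positivity) (by positivity), Real.log_mul (by positivity)
      (by positivity), Real.log_pow, Real.log_pow]
    push_cast
    ring
  rw [h5] at hbr
  have h6 : ALC.branchHeight K A (b : K) = ALC.branchHeight K A (((b : ℤ) : K)) := by norm_num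
  rw [h6]
  linarith

end SzAF
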