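import Pool.Agent.SzAF.Main
import Pool.Agent.SzFM.Main

/-!
Families of cyclic covers of the line.
-/

open Polynomial
open scoped Classical

namespace SzAF

/-- `y^m - f(x)` -/
noncomputable def superEqn (m : ℕ) (f : ℤ[X]) : ℤ[X][X] := X ^ m - C f

theorem super_natDegree {R : Type*} [CommRing R] [Nontrivial R] (m : ℕ) (f : R) :
    (X ^ m - C f : R[X]).natDegree = m := natDegree_X_pow_sub_C

theorem super_monic {R : Type*} [CommRing R] (m : ℕ) (hm : 1 ≤ m) (f : R) :
    (X ^ m - C f : R[X]).Monic := monic_X_pow_sub_C f (by omega)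

theorem super_discr_dvd (m : ℕ) (hm : 2 ≤ m) (f : ℤ[X]) :
    (superEqn m f).discr ∣ C ((m : ℤ) ^ m) * f ^ (m - 1) := by
  have h0 : (superEqn m f).natDegree = m := super_natDegree m f
  have h1 := resultant_deriv (f := superEqn m f) (natDegree_pos_iff_degree_pos.1 (by omega))
  have hlead : (superEqn m f).leadingCoeff = 1 := super_monic m (by omega) f
  have hder : (superEqn m f).derivative = C (C (m : ℤ)) * X ^ (m - 1) := by
    unfold superEqn
    rw [derivative_sub, derivative_C, sub_zero, derivative_X_pow]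
    simp
  rw [hlead, hder, h0, resultant_C_mul_right, resultant_X_pow_right _ _ _ h0.le] at h1
  have hc0 : (superEqn m f).coeff 0 = -f := by
    unfold superEqn
    rw [coeff_sub, coeff_X_pow, if_neg (by omega), coeff_C_zero, zero_sub]
  rw [hc0, mul_one] at h1
  have hunit : ∀ k : ℕ, IsUnit ((-1 : ℤ[X]) ^ k) := fun k => (isUnit_one.neg).pow k
  have h2 : (superEqn m f).discr ∣ C (m : ℤ) ^ m * ((-1) ^ (m * (m - 1)) * (-f) ^ (m - 1)) := by
    rw [h1]
    exact dvd_mul_left _ _
  refine h2.trans ?_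
  rw [neg_pow f, map_pow]
  refine mul_dvd_mul_left _ ?_
  rw [← mul_assoc]
  exact ((hunit _).mul (hunit _)).mul_left_dvd.2 dvd_rfl

theorem super_irred (m : ℕ) (hm : 2 ≤ m) (f : ℤ[X]) (hf : 1 ≤ f.natDegree) (hd : f.discr ≠ 0) :
    Irred (superEqn m f) := by
  unfold Irred superEqn
  rw [Polynomial.map_sub, Polynomial.map_pow, map_X, map_C, coe_mapRingHom]
  set q : ℂ[X] := f.map (Int.castRingHom ℂ) with hq
  have hqd : q.natDegree = f.natDegree :=
    natDegree_map_eq_of_injective (RingHom.injective_int _) f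
  have hsep : q.Separable := by
    apply SzBF.separable_of_discr (by omega)
    rw [hq, SzBF.discr_map_of_ne (Int.castRingHom ℂ)]
    · simpa using hd
    · have : f.leadingCoeff ≠ 0 := by
        rw [leadingCoeff_ne_zero]
        rintro rfl
        simp at hf
      simpa using this
  obtain ⟨α, hα⟩ := IsAlgClosed.exists_root q (natDegree_pos_iff_degree_pos.1 (by omega)).ne'
  have hq0 : q ≠ 0 := by
    rintro h
    rw [h, natDegree_zero] at hqd
    omega
  have hprime : (Ideal.span {X - C α} : Ideal ℂ[X]).IsPrime :=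
    (Ideal.span_singleton_prime (X_sub_C_ne_zero α)).2 (prime_X_sub_C α)
  have hmem : q ∈ (Ideal.span {X - C α} : Ideal ℂ[X]) := by
    rw [Ideal.mem_span_singleton]
    exact dvd_iff_isRoot.2 hα
  have hdeg : (X ^ m - C q : ℂ[X][X]).natDegree = m := super_natDegree m q
  have hcoeff : ∀ n : ℕ, n < m → n ≠ 0 → (X ^ m - C q : ℂ[X][X]).coeff n = 0 := by
    intro n hn hn0
    rw [coeff_sub, coeff_X_pow, if_neg (by omega), coeff_C, if_neg hn0, sub_zero]
  have hcoeff0 : (X ^ m - C q : ℂ[X][X]).coeff 0 = -q := by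
    rw [coeff_sub, coeff_X_pow, if_neg (by omega), coeff_C_zero, zero_sub]
  have hmon : (X ^ m - C q : ℂ[X][X]).Monic := super_monic m (by omega) q
  refine irreducible_of_eisenstein_criterion hprime ?_ ?_ ?_ ?_ hmon.isPrimitive
  · rw [hmon.leadingCoeff]
    exact fun h => hprime.ne_top ((Ideal.eq_top_iff_one _).2 h)
  · intro n hn
    have hn' : n < m := by
      rw [degree_eq_natDegree hmon.ne_zero, hdeg] at hn
      exact_mod_cast hn
    rcases Nat.eq_zero_or_pos n with h0 | h0
    · rw [h0, hcoeff0]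
      exact neg_mem hmem
    · rw [hcoeff n hn' h0.ne']
      exact zero_mem _
  · rw [← natDegree_pos_iff_degree_pos, hdeg]
    omega
  · rw [hcoeff0]
    intro h
    have h1 : q ∈ (Ideal.span {X - C α} : Ideal ℂ[X]) ^ 2 := by
      have := neg_mem h
      rwa [neg_neg] at this
    rw [Ideal.span_singleton_pow, Ideal.mem_span_singleton] at h1
    have h2 := hsep.squarefree (X - C α) (by rwa [← sq])
    exact (prime_X_sub_C α).not_isUnit h2

theorem super_small (m N : ℕ) (hm : 2 ≤ m) (f : ℤ[X]) (hf : 1 ≤ f.natDegree)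
    (hfN : f.natDegree ≤ N) (hd : f.discr ≠ 0) (H : ℕ) (hH1 : 1 ≤ H) (hH : ∀ i, |f.coeff i| ≤ H) :
    SmallPoint (superEqn m f) (Real.log H + ((N + 1) * Real.log (N + 1) +
      2 * Chebyshev.psi m + 4 * Real.log 2)) := by
  refine small_point m N hm (superEqn m f) (super_natDegree m f) 1 one_ne_zero ?_
    (super_irred m hm f hf hd) f ?_ hfN ⟨(m : ℤ) ^ m, ?_, m - 1, super_discr_dvd m hm f⟩ H hH1 hH
  · rw [C_1]
    exact super_monic m (by omega) f
  · rintro rfl
    simp at hf
  · exact pow_ne_zero _ (by exact_mod_cast (by omega : m ≠ 0))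

end SzAF
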